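import Pool.Agent.Helper74.CO.Goals

/-!
Project CO (MP_c5396e_co), packet GPAT: the Golomb pattern.
-/

set_option autoImplicit false

namespace Pool.Agent.Helper25.CO

open Finset Pool.Agent.Helper74.CO

theorem dvd_small {q a b : ℤ} (h : (q - 1) ∣ a - b) (ha : 1 ≤ a) (ha' : a ≤ q - 2) (hb : 1 ≤ b)
    (hb' : b ≤ q - 2) : a = b := by
  obtain ⟨k, hk⟩ := h
  have h1 : k < 1 := by
    by_contra hk1
    push Not at hk1
    nlinarith
  have h2 : -1 < k := by
    by_contra hk1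
    push Not at hk1
    nlinarith
  have h3 : k = 0 := by omega
  subst h3
  omega

theorem t_GPAT (hI : IND) : GPAT := by
  classical
  intro F _ _ α β hq hα hβ
  obtain ⟨a0, a1, a2, a3⟩ := hI F α hα hq
  obtain ⟨b0, b1, b2, b3⟩ := hI F β hβ hq
  set q : ℕ := Fintype.card F with hqdef
  have hmem : ∀ P : ℤ × ℤ, P ∈ Ga α β ↔
      ((1 ≤ P.1 ∧ P.1 ≤ (q : ℤ) - 2) ∧ (1 ≤ P.2 ∧ P.2 ≤ (q : ℤ) - 2)) ∧
        α ^ P.1 + β ^ P.2 = 1 := by
    intro P
    unfold Ga
    rw [mem_filter, mem_product, mem_Icc, mem_Icc]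
    rfl
  have inj : ∀ P ∈ Ga α β, ∀ R ∈ Ga α β, α ^ P.1 = α ^ R.1 → P = R := by
    intro P hP R hR h
    obtain ⟨⟨⟨p1, p2⟩, p3, p4⟩, p5⟩ := (hmem P).1 hP
    obtain ⟨⟨⟨r1, r2⟩, r3, r4⟩, r5⟩ := (hmem R).1 hR
    have e1 : P.1 = R.1 := dvd_small ((a3 _ _).1 h) p1 p2 r1 r2
    have h2 : β ^ P.2 = β ^ R.2 := by
      have h3 : α ^ P.1 + β ^ P.2 = α ^ P.1 + β ^ R.2 := by rw [p5, h, r5]
      exact add_left_cancel h3
    have e2 : P.2 = R.2 := dvd_small ((b3 _ _).1 h2) p3 p4 r3 r4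
    exact Prod.ext e1 e2
  refine ⟨fun P hP => ((hmem P).1 hP).2, ?_, ?_, ?_⟩
  · intro P hP
    obtain ⟨⟨⟨p1, p2⟩, p3, p4⟩, p5⟩ := (hmem P).1 hP
    refine ⟨by omega, by omega, p3, by omega⟩
  · have hS : ((univ.erase (0 : F)).erase 1).card = q - 2 := by
      rw [card_erase_of_mem (mem_erase.2 ⟨one_ne_zero, mem_univ _⟩),
        card_erase_of_mem (mem_univ _), card_univ]
      omega
    rw [← hS]
    symm
    refine card_nbij' (fun x => ((ind α x : ℤ), (ind β (1 - x) : ℤ))) (fun P => α ^ P.1)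
      ?_ ?_ ?_ ?_
    · intro x hx
      obtain ⟨h1, h2⟩ := mem_erase.1 (mem_coe.1 hx)
      have h0 : x ≠ 0 := (mem_erase.1 h2).1
      have h3 : (1 : F) - x ≠ 0 := fun h => h1 (sub_eq_zero.1 h).symm
      obtain ⟨c1, c2⟩ := a2 x h0
      obtain ⟨c3, c4⟩ := b2 (1 - x) h3
      have c5 : ind α x ≠ 0 := fun h => by
        rw [h, pow_zero] at c1
        exact h1 c1.symm
      have c6 : ind β (1 - x) ≠ 0 := fun h => by
        rw [h, pow_zero] at c3
        refine h0 ?_
        have : (1 : F) - x = 1 - 0 := by rw [← c3, sub_zero]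
        exact sub_right_injective this
      refine mem_coe.2 ((hmem _).2 ⟨⟨⟨?_, ?_⟩, ?_, ?_⟩, ?_⟩)
      · change (1 : ℤ) ≤ (ind α x : ℤ)
        omega
      · change (ind α x : ℤ) ≤ (q : ℤ) - 2
        omega
      · change (1 : ℤ) ≤ (ind β (1 - x) : ℤ)
        omega
      · change (ind β (1 - x) : ℤ) ≤ (q : ℤ) - 2
        omega
      · change α ^ (ind α x : ℤ) + β ^ (ind β (1 - x) : ℤ) = 1
        rw [zpow_natCast, zpow_natCast, c1, c3]
        ring
    · intro P hP
      obtain ⟨⟨⟨p1, p2⟩, p3, p4⟩, p5⟩ := (hmem P).1 (mem_coe.1 hP)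
      refine mem_coe.2 (mem_erase.2 ⟨?_, mem_erase.2 ⟨zpow_ne_zero _ a0, mem_univ _⟩⟩)
      intro h
      have h1 := (a1 P.1).1 h
      have h2 : P.1 = 0 := by
        obtain ⟨k, hk⟩ := h1
        have h3 : k < 1 := by
          by_contra hk1
          push Not at hk1
          nlinarith
        have h4 : -1 < k := by
          by_contra hk1
          push Not at hk1
          nlinarith
        have h5 : k = 0 := by omega
        rw [hk, h5, mul_zero]
      omega
    · intro x hx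
      obtain ⟨h1, h2⟩ := mem_erase.1 (mem_coe.1 hx)
      change α ^ (ind α x : ℤ) = x
      rw [zpow_natCast]
      exact (a2 x (mem_erase.1 h2).1).1
    · intro P hP
      obtain ⟨⟨⟨p1, p2⟩, p3, p4⟩, p5⟩ := (hmem P).1 (mem_coe.1 hP)
      have h0 : α ^ P.1 ≠ 0 := zpow_ne_zero _ a0
      have h1 : 1 - α ^ P.1 = β ^ P.2 := by rw [← p5]; ring
      have h2 : β ^ P.2 ≠ 0 := zpow_ne_zero _ b0
      obtain ⟨c1, c2⟩ := a2 _ h0
      obtain ⟨c3, c4⟩ := b2 _ h2
      have small : ∀ n : ℕ, ∀ m : ℤ, (n : ℤ) < (q : ℤ) - 1 → 1 ≤ m → m ≤ (q : ℤ) - 2 →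
          ((q : ℤ) - 1) ∣ (n : ℤ) - m → (n : ℤ) = m := by
        rintro n m hn hm1 hm2 ⟨k, hk⟩
        have h3 : k < 1 := by
          by_contra hk1
          push Not at hk1
          nlinarith
        have h4 : -1 < k := by
          by_contra hk1
          push Not at hk1
          nlinarith
        have h5 : k = 0 := by omega
        rw [h5, mul_zero] at hk
        omega
      refine Prod.ext ?_ ?_
      · change (ind α (α ^ P.1) : ℤ) = P.1
        refine small _ _ c2 p1 p2 ((a3 _ _).1 ?_)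
        rw [zpow_natCast]
        exact c1
      · change (ind β (1 - α ^ P.1) : ℤ) = P.2
        rw [h1]
        refine small _ _ c4 p3 p4 ((b3 _ _).1 ?_)
        rw [zpow_natCast]
        exact c3
  · intro a ha b hb c hc d hd h
    obtain ⟨_, pa⟩ := (hmem a).1 ha
    obtain ⟨_, pb⟩ := (hmem b).1 hb
    obtain ⟨_, pc⟩ := (hmem c).1 hc
    obtain ⟨_, pd⟩ := (hmem d).1 hd
    have h1 : a.1 - b.1 = c.1 - d.1 := congrArg Prod.fst h
    have h2 : a.2 - b.2 = c.2 - d.2 := congrArg Prod.snd h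
    set lam : F := α ^ (a.1 - b.1) with hlam
    set mu : F := β ^ (a.2 - b.2) with hmu
    have e1 : α ^ a.1 = lam * α ^ b.1 := by rw [hlam, ← zpow_add₀ a0]; congr 1; ring
    have e2 : α ^ c.1 = lam * α ^ d.1 := by rw [hlam, h1, ← zpow_add₀ a0]; congr 1; ring
    have e3 : β ^ a.2 = mu * β ^ b.2 := by rw [hmu, ← zpow_add₀ b0]; congr 1; ring
    have e4 : β ^ c.2 = mu * β ^ d.2 := by rw [hmu, h2, ← zpow_add₀ b0]; congr 1; ring
    rw [e1, e3] at pa
    rw [e2, e4] at pc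
    have f1 : (lam - mu) * α ^ b.1 = 1 - mu := by
      linear_combination pa - mu * pb
    have f2 : (lam - mu) * α ^ d.1 = 1 - mu := by
      linear_combination pc - mu * pd
    by_cases hlm : lam = mu
    · left
      have hmu1 : mu = 1 := by
        rw [hlm, sub_self, zero_mul] at f1
        exact (sub_eq_zero.1 f1.symm).symm
      refine inj a ha b hb ?_
      rw [e1, hlm, hmu1, one_mul]
    · right
      have hne : lam - mu ≠ 0 := sub_ne_zero.2 hlm
      have e5 : α ^ b.1 = α ^ d.1 := mul_left_cancel₀ hne (f1.trans f2.symm)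
      have e6 := inj b hb d hd e5
      rw [e6] at h
      exact sub_left_injective h

end Pool.Agent.Helper25.CO
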